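import Pool.Agent.H410.QE.Stm

/-!
Project QE, lemma LOS (helper370): lower bound for `|Z - s|`.
-/

set_option autoImplicit false

namespace Pool.Agent.H410.QE

open Finset Polynomial
open Pool.Agent.H410.QL (ZZ MQ RT wR)
open Pool.Agent.H410.FL (nw)

namespace P_LOS

theorem arith (n V V' C₁ C₂ : ℕ) (hV : V' ≤ V) (h : 2 * n ^ 3 ≤ 3 * V' + 6 * n ^ 2)
    (hn : 1 ≤ n)
    (hk : 90000 * V + 25000 * (2 * n + 1) ^ 3 ≤
      3 * (86576 * n ^ 3 + C₁ * n ^ 2) + 5000 * (111 * n ^ 2 + C₂ * (2 * n + 1) ^ 2))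
    (hB : 735000 + 3 * C₁ + 45000 * C₂ + 1 ≤ n) : False := by
  have h1 : 8 * n ^ 3 ≤ (2 * n + 1) ^ 3 := by
    have : (2 * n) ^ 3 ≤ (2 * n + 1) ^ 3 := Nat.pow_le_pow_left (by omega) 3
    calc 8 * n ^ 3 = (2 * n) ^ 3 := by ring
      _ ≤ _ := this
  have h2 : (2 * n + 1) ^ 2 ≤ 9 * n ^ 2 := by
    have : (2 * n + 1) ^ 2 ≤ (3 * n) ^ 2 := Nat.pow_le_pow_left (by omega) 2
    calc (2 * n + 1) ^ 2 ≤ (3 * n) ^ 2 := this
      _ = 9 * n ^ 2 := by ring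
  have h3 : C₂ * (2 * n + 1) ^ 2 ≤ C₂ * (9 * n ^ 2) := Nat.mul_le_mul_left _ h2
  have h4 : 272 * n ^ 3 ≤ (735000 + 3 * C₁ + 45000 * C₂) * n ^ 2 := by
    have e1 : (735000 + 3 * C₁ + 45000 * C₂) * n ^ 2 =
      735000 * n ^ 2 + 3 * (C₁ * n ^ 2) + 5000 * (C₂ * (9 * n ^ 2)) := by ring
    rw [e1]
    omega
  have h5 : (735000 + 3 * C₁ + 45000 * C₂ + 1) * n ^ 2 ≤ n * n ^ 2 := Nat.mul_le_mul_right _ hB
  have h6 : 0 < n ^ 2 := by positivity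
  have h7 : n * n ^ 2 = n ^ 3 := by ring
  rw [h7, add_mul, one_mul] at h5
  omega

theorem one_le_H {r : Fin 3 → ℤ} {H : ℕ} (hr : r ≠ 0) (hH : ∀ i, |r i| ≤ (H : ℤ)) : 1 ≤ H := by
  by_contra h
  have h0 : H = 0 := by omega
  apply hr
  funext i
  have h1 := hH i
  rw [h0] at h1
  have h2 : |r i| ≤ 0 := by exact_mod_cast h1
  exact abs_nonpos_iff.1 h2

theorem nw_le {w : Fin 3 → ℤ} {H : ℕ} (hH : ∀ i, |w i| ≤ (H : ℤ)) :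
    0 ≤ nw (wR w) ∧ nw (wR w) ≤ 3 * (H : ℝ) := by
  have h : ∀ i, |wR w i| ≤ (H : ℝ) := by
    intro i
    unfold wR
    exact_mod_cast hH i
  have h0 := h 0
  have h1 := h 1
  have h2 := h 2
  constructor
  · unfold nw
    positivity
  · unfold nw
    linarith

/-- `nw ^ (18 N) ≤ P ^ (111 n ^ 2)` -/
theorem nw_pow {w : Fin 3 → ℤ} {H n C : ℕ} {P : ℝ} (hw : w ≠ 0) (hH : ∀ i, |w i| ≤ (H : ℤ))
    (hn : 1 ≤ n) (hC : 18 ≤ C) (hHn : H ^ C ≤ 2 ^ n) (hP : 2 ≤ P) :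
    nw (wR w) ^ (18 * (2 * n + 1)) ≤ P ^ (111 * n ^ 2) := by
  have hH1 := one_le_H hw hH
  obtain ⟨h0, h1⟩ := nw_le hH
  have h2 : (3 * H) ^ 18 ≤ 2 ^ (37 * n) := by
    have a1 : H ^ 18 ≤ 2 ^ n := (Nat.pow_le_pow_right hH1 hC).trans hHn
    have a2 : (3 : ℕ) ^ 18 ≤ 2 ^ (36 * n) := by
      calc (3 : ℕ) ^ 18 ≤ 2 ^ 36 := by norm_num
        _ ≤ 2 ^ (36 * n) := Nat.pow_le_pow_right (by norm_num) (by omega)
    calc (3 * H) ^ 18 = 3 ^ 18 * H ^ 18 := mul_pow _ _ _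
      _ ≤ 2 ^ (36 * n) * 2 ^ n := Nat.mul_le_mul a2 a1
      _ = 2 ^ (37 * n) := by rw [← pow_add]; congr 1; ring
  have h3 : nw (wR w) ^ 18 ≤ P ^ (37 * n) := by
    calc nw (wR w) ^ 18 ≤ (3 * (H : ℝ)) ^ 18 := pow_le_pow_left₀ h0 h1 _
      _ ≤ (2 : ℝ) ^ (37 * n) := by exact_mod_cast h2
      _ ≤ P ^ (37 * n) := pow_le_pow_left₀ (by norm_num) hP _
  calc nw (wR w) ^ (18 * (2 * n + 1)) = (nw (wR w) ^ 18) ^ (2 * n + 1) := pow_mul _ _ _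
    _ ≤ (P ^ (37 * n)) ^ (2 * n + 1) := pow_le_pow_left₀ (by positivity) h3 _
    _ = P ^ (37 * n * (2 * n + 1)) := (pow_mul _ _ _).symm
    _ ≤ P ^ (111 * n ^ 2) := by
      apply pow_le_pow_right₀ (by linarith)
      nlinarith

end P_LOS

open P_LOS in
theorem t_LOS (hNV : Pool.Agent.H410.QE.S_NV) (hLOW : Pool.Agent.H410.QL.S_LOW)
    (hSV : Pool.Agent.H410.NQ.S_SV) (hRB : Pool.Agent.H410.QL.S_RB)
    (hUP : Pool.Agent.H410.QE.S_UP) : S_LOS := by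
  intro p hp
  obtain ⟨C₁, hC₁⟩ := hRB p hp
  obtain ⟨C₂, hC₂⟩ := hUP p hp
  obtain ⟨C₃, hC₃, h3⟩ := hNV p hp
  refine ⟨C₃ + 18 + 9 * C₂ * C₃ ^ 2 + (735000 + 3 * C₁ + 45000 * C₂ + 1), by omega, ?_⟩
  intro w s H B hw hH hCB hHB
  generalize hCdef : C₃ + 18 + 9 * C₂ * C₃ ^ 2 + (735000 + 3 * C₁ + 45000 * C₂ + 1) = C
    at hCB hHB ⊢
  have hH1 : 1 ≤ H := one_le_H hw hH
  have c1 : C₃ ≤ C := by omega
  have c2 : 18 ≤ C := by omega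
  have c3 : 9 * C₂ * C₃ ^ 2 ≤ C := by omega
  have c4 : 735000 + 3 * C₁ + 45000 * C₂ + 1 ≤ C := by omega
  obtain ⟨n, hn1, hn2, hdet0⟩ := h3 w s H B hw hH (c1.trans hCB)
    ((Nat.pow_le_pow_right hH1 c1).trans hHB)
  by_contra hcon
  rw [not_lt] at hcon
  have hn : 1 ≤ n := by omega
  have hpR : (2 : ℝ) ≤ |(p : ℝ)| := by exact_mod_cast hp
  have hp1 : (1 : ℝ) < |(p : ℝ)| := by linarith
  have hN2 : C₂ * (2 * n + 1) ^ 2 ≤ C * B ^ 2 := by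
    have e1 : (2 * n + 1) ^ 2 ≤ (3 * (C₃ * B)) ^ 2 := Nat.pow_le_pow_left (by omega) 2
    calc C₂ * (2 * n + 1) ^ 2 ≤ C₂ * (3 * (C₃ * B)) ^ 2 := Nat.mul_le_mul_left _ e1
      _ = (9 * C₂ * C₃ ^ 2) * B ^ 2 := by ring
      _ ≤ C * B ^ 2 := Nat.mul_le_mul_right _ c3
  have hup := hC₂ w s (2 * n + 1) hw (by omega)
    (le_trans (mul_le_mul_of_nonneg_left (pow_le_pow_right₀ hp1.le hN2) (abs_nonneg _)) hcon)
  have hnw : nw (wR w) ^ (18 * (2 * n + 1)) ≤ |(p : ℝ)| ^ (111 * n ^ 2) :=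
    nw_pow hw hH hn c2 (hHB.trans (Nat.pow_le_pow_right (by norm_num) hn1)) hpR
  have hup2 : |(((MQ p w s (2 * n + 1)).det : ℚ) : ℝ)| ^ 18 * |(p : ℝ)| ^ (5 * (2 * n + 1) ^ 3) ≤
      |(p : ℝ)| ^ (111 * n ^ 2 + C₂ * (2 * n + 1) ^ 2) := by
    refine hup.trans ?_
    rw [pow_add]
    exact mul_le_mul_of_nonneg_right hnw (by positivity)
  have hlow : |(p : ℝ)| ^ (∑ r ∈ range (2 * n + 1), NQ.vv r) ≤
      |(RT p n : ℝ)| * |(((MQ p w s (2 * n + 1)).det : ℚ) : ℝ)| := by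
    have h := hLOW p hp w s n hdet0
    exact_mod_cast h
  have hrb := hC₁ n hn
  set V : ℕ := ∑ r ∈ range (2 * n + 1), NQ.vv r with hV
  set D : ℝ := (((MQ p w s (2 * n + 1)).det : ℚ) : ℝ) with hD
  have key : |(p : ℝ)| ^ (90000 * V + 25000 * (2 * n + 1) ^ 3) ≤
      |(p : ℝ)| ^ (3 * (86576 * n ^ 3 + C₁ * n ^ 2) +
        5000 * (111 * n ^ 2 + C₂ * (2 * n + 1) ^ 2)) := by
    calc |(p : ℝ)| ^ (90000 * V + 25000 * (2 * n + 1) ^ 3)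
        = (|(p : ℝ)| ^ V) ^ 90000 * |(p : ℝ)| ^ (25000 * (2 * n + 1) ^ 3) := by
          rw [pow_add, ← pow_mul, mul_comm 90000]
      _ ≤ (|(RT p n : ℝ)| * |D|) ^ 90000 * |(p : ℝ)| ^ (25000 * (2 * n + 1) ^ 3) := by
          gcongr
      _ = (|(RT p n : ℝ)| ^ 30000) ^ 3 *
          (|D| ^ 18 * |(p : ℝ)| ^ (5 * (2 * n + 1) ^ 3)) ^ 5000 := by
          rw [mul_pow, mul_pow, ← pow_mul, ← pow_mul, ← pow_mul, mul_assoc]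
          congr 3
          ring
      _ ≤ (|(p : ℝ)| ^ (86576 * n ^ 3 + C₁ * n ^ 2)) ^ 3 *
          (|(p : ℝ)| ^ (111 * n ^ 2 + C₂ * (2 * n + 1) ^ 2)) ^ 5000 := by
          gcongr
      _ = _ := by
          rw [← pow_mul, ← pow_mul, ← pow_add]
          congr 1
          ring
  have key2 := (pow_le_pow_iff_right₀ hp1).mp key
  have hVV : ∑ r ∈ range (2 * n), NQ.vv r ≤ V := by
    rw [hV, Finset.sum_range_succ]
    exact Nat.le_add_right _ _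
  exact arith n V _ C₁ C₂ hVV (hSV n) hn key2 ((c4.trans hCB).trans hn1)

end Pool.Agent.H410.QE
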