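import Pool.Agent.H410.QE.Stm

/-!
Effective choice of the prime (`S_NVP`; by helper581 for helper410).
-/

namespace Pool.Agent.H410.QE

open Pool.Agent.H410.QL

namespace P_NVP

open Filter Polynomial

/-- a polynomial grows slower than `2 ^ m` -/
theorem growth (Q : ℤ[X]) : ∃ M : ℕ, ∀ m : ℕ, M ≤ m → |Q.eval (m : ℤ)| < 2 ^ m := by
  have h1 : (fun m : ℕ => (Q.map (Int.castRingHom ℝ)).eval (m : ℝ)) =o[atTop]
      fun m : ℕ => (2 : ℝ) ^ m := by
    simp only [Polynomial.eval_eq_sum_range]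
    have h0 : ∀ i ∈ Finset.range ((Q.map (Int.castRingHom ℝ)).natDegree + 1),
        (fun m : ℕ => (Q.map (Int.castRingHom ℝ)).coeff i * (m : ℝ) ^ i) =o[atTop]
          fun m : ℕ => (2 : ℝ) ^ m := by
      intro i _
      exact (isLittleO_pow_const_const_pow_of_one_lt (R := ℝ) (r := 2) i
        (by norm_num)).const_mul_left ((Q.map (Int.castRingHom ℝ)).coeff i)
    exact Asymptotics.IsLittleO.fun_sum h0
  have h2 := h1.bound (show (0 : ℝ) < 1 / 2 by norm_num)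
  obtain ⟨M, hM⟩ := Filter.eventually_atTop.1 h2
  refine ⟨M, fun m hm => ?_⟩
  have h3 := hM m hm
  have h4 : (Q.map (Int.castRingHom ℝ)).eval (m : ℝ) = ((Q.eval (m : ℤ) : ℤ) : ℝ) := by
    simp
  rw [h4, Real.norm_eq_abs, Real.norm_eq_abs, abs_of_pos (show (0 : ℝ) < 2 ^ m by positivity)]
    at h3
  have h5 : (0 : ℝ) < 2 ^ m := by positivity
  have h6 : ((|Q.eval (m : ℤ)| : ℤ) : ℝ) < ((2 ^ m : ℤ) : ℝ) := by
    push_cast
    linarith
  exact_mod_cast h6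

/-- the lower bound for the sum of the powers -/
theorem geo (p : ℤ) (hp : 2 ≤ |p|) (T : ℕ) :
    2 ^ T ≤ |∑ i ∈ Finset.range (T + 2), p ^ i| := by
  have h1 : (∑ i ∈ Finset.range (T + 2), p ^ i) * (p - 1) = p ^ (T + 2) - 1 :=
    geom_sum_mul p (T + 2)
  have h2 : |∑ i ∈ Finset.range (T + 2), p ^ i| * |p - 1| = |p ^ (T + 2) - 1| := by
    rw [← abs_mul, h1]
  have h3 : |p - 1| ≤ |p| + 1 := by
    refine (abs_sub _ _).trans ?_
    rw [abs_one]
  have h4 : |p| ^ (T + 2) - 1 ≤ |p ^ (T + 2) - 1| := by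
    have := abs_sub_abs_le_abs_sub (p ^ (T + 2)) 1
    rwa [abs_pow, abs_one] at this
  have h5 : (2 : ℤ) ^ T ≤ |p| ^ T := pow_le_pow_left₀ (by norm_num) hp T
  have h6 : (1 : ℤ) ≤ 2 ^ T := one_le_pow₀ (by norm_num)
  have h7 : |p| ^ T * (|p| + 1) ≤ |p| ^ (T + 2) - 1 := by
    have e : |p| ^ (T + 2) = |p| ^ T * (|p| * |p|) := by ring
    rw [e]
    have h8 : |p| + 2 ≤ |p| * |p| := by nlinarith
    have h9 : |p| ^ T * (|p| + 2) ≤ |p| ^ T * (|p| * |p|) :=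
      mul_le_mul_of_nonneg_left h8 (by linarith)
    nlinarith
  have h10 : 0 < |p| + 1 := by linarith
  have h11 : |p| ^ T * (|p| + 1) ≤ |∑ i ∈ Finset.range (T + 2), p ^ i| * (|p| + 1) := by
    calc |p| ^ T * (|p| + 1) ≤ |∑ i ∈ Finset.range (T + 2), p ^ i| * |p - 1| := by linarith
      _ ≤ _ := mul_le_mul_of_nonneg_left h3 (abs_nonneg _)
  exact h5.trans (le_of_mul_le_mul_right h11 h10)

/-- three values of a quadratic polynomial -/
theorem three (w : Fin 3 → ℤ) (a b c : ℤ) (hab : a ≠ b) (hac : a ≠ c) (hbc : b ≠ c)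
    (h1 : Wz w a = 0) (h2 : Wz w b = 0) (h3 : Wz w c = 0) : w = 0 := by
  unfold Wz at h1 h2 h3
  have e1 : (a - b) * (w 1 + w 2 * (a + b)) = 0 := by linear_combination h1 - h2
  have e2 : (a - c) * (w 1 + w 2 * (a + c)) = 0 := by linear_combination h1 - h3
  have f1 := (mul_eq_zero.1 e1).resolve_left (sub_ne_zero.2 hab)
  have f2 := (mul_eq_zero.1 e2).resolve_left (sub_ne_zero.2 hac)
  have e3 : (b - c) * w 2 = 0 := by linear_combination f1 - f2
  have g2 : w 2 = 0 := (mul_eq_zero.1 e3).resolve_left (sub_ne_zero.2 hbc)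
  have g1 : w 1 = 0 := by rw [g2] at f1; linarith
  have g0 : w 0 = 0 := by rw [g2, g1] at h1; linarith
  funext i
  fin_cases i
  · exact g0
  · exact g1
  · exact g2

/-- the leading coefficient -/
theorem wt_ne (w : Fin 3 → ℤ) (hw : w ≠ 0) : wt w ≠ 0 := by
  unfold wt
  split_ifs with h2 h1
  · exact h2
  · exact h1
  · intro h0
    apply hw
    push Not at h1 h2
    funext i
    fin_cases i
    · exact h0
    · exact h1
    · exact h2

theorem wt_le (w : Fin 3 → ℤ) (H : ℕ) (hH : ∀ i, |w i| ≤ (H : ℤ)) : |wt w| ≤ (H : ℤ) := by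
  unfold wt
  split_ifs
  · exact hH 2
  · exact hH 1
  · exact hH 0

theorem W_le (w : Fin 3 → ℤ) (H : ℕ) (hH : ∀ i, |w i| ≤ (H : ℤ)) (T : ℕ) (hT : 1 ≤ T) :
    |Wz w (T : ℤ)| ≤ 3 * (H : ℤ) * (T : ℤ) ^ 2 := by
  unfold Wz
  have hT' : (1 : ℤ) ≤ T := by exact_mod_cast hT
  have h0 := hH 0
  have h1 := hH 1
  have h2 := hH 2
  have hH0 : (0 : ℤ) ≤ H := Int.natCast_nonneg H
  have e1 : |w 0 + w 1 * (T : ℤ) + w 2 * (T : ℤ) ^ 2| ≤ |w 0| + |w 1| * T + |w 2| * (T : ℤ) ^ 2 := by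
    refine (abs_add_le _ _).trans ?_
    refine add_le_add ((abs_add_le _ _).trans (add_le_add le_rfl ?_)) ?_
    · rw [abs_mul, abs_of_nonneg (by linarith : (0 : ℤ) ≤ T)]
    · rw [abs_mul, abs_of_nonneg (by positivity : (0 : ℤ) ≤ (T : ℤ) ^ 2)]
  have e2 : |w 1| * (T : ℤ) ≤ H * (T : ℤ) ^ 2 := by
    refine mul_le_mul h1 ?_ (by linarith) hH0
    nlinarith
  have e3 : |w 2| * (T : ℤ) ^ 2 ≤ H * (T : ℤ) ^ 2 := mul_le_mul_of_nonneg_right h2 (by positivity)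
  have e4 : (H : ℤ) ≤ H * (T : ℤ) ^ 2 := by
    refine le_mul_of_one_le_right hH0 ?_
    nlinarith
  linarith

end P_NVP

open P_NVP Polynomial in
/-- Effective choice of the prime. -/
theorem t_NVP : S_NVP := by
  intro p hp
  obtain ⟨M, hM⟩ := growth (20736 * X ^ 8)
  refine ⟨p.natAbs + 43 + M, by omega, ?_⟩
  intro w H B hw hH hCB hHB
  have hB0 : B ≠ 0 := by omega
  -- the prime `T`
  have hTex : ∃ T : ℕ, T.Prime ∧ B < T ∧ T ≤ 8 * B ∧ Wz w (T : ℤ) ≠ 0 := by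
    obtain ⟨T1, hp1, h11, h12⟩ := Nat.exists_prime_lt_and_le_two_mul B hB0
    obtain ⟨T2, hp2, h21, h22⟩ := Nat.exists_prime_lt_and_le_two_mul (2 * B) (by omega)
    obtain ⟨T3, hp3, h31, h32⟩ := Nat.exists_prime_lt_and_le_two_mul (4 * B) (by omega)
    by_cases c1 : Wz w (T1 : ℤ) = 0
    · by_cases c2 : Wz w (T2 : ℤ) = 0
      · refine ⟨T3, hp3, by omega, by omega, fun c3 => ?_⟩
        exact hw (three w T1 T2 T3 (by omega) (by omega) (by omega) c1 c2 c3)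
      · exact ⟨T2, hp2, by omega, by omega, c2⟩
    · exact ⟨T1, hp1, by omega, by omega, c1⟩
  obtain ⟨T, hTp, hBT, hT8, hWT⟩ := hTex
  have hH1 : 1 ≤ H := by
    by_contra hc
    have h0 : H = 0 := by omega
    apply hw
    funext i
    have := hH i
    rw [h0] at this
    push_cast at this
    exact abs_eq_zero.1 (le_antisymm this (abs_nonneg _))
  obtain ⟨m, rfl⟩ : ∃ m, T = m + 2 := ⟨T - 2, by omega⟩
  -- the size
  have hsize : 3 * (H : ℤ) ^ 2 * ((m + 2 : ℕ) : ℤ) ^ 2 < 2 ^ m := by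
    have h1 : 20736 * ((m + 2 : ℕ) : ℤ) ^ 8 < 2 ^ (m + 2) := by
      have h2 := hM (m + 2) (by omega)
      rw [Polynomial.eval_mul, Polynomial.eval_pow, Polynomial.eval_X] at h2
      have h3 : (20736 : ℤ[X]).eval (((m + 2 : ℕ) : ℤ)) = 20736 := by simp
      rw [h3, abs_of_nonneg (by positivity)] at h2
      exact h2
    have h2 : (H : ℤ) ^ 8 ≤ 2 ^ (m + 2) := by
      have h3 : H ^ 8 ≤ 2 ^ (m + 2) := by
        calc H ^ 8 ≤ H ^ (p.natAbs + 43 + M) := Nat.pow_le_pow_right hH1 (by omega)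
          _ ≤ 2 ^ B := hHB
          _ ≤ 2 ^ (m + 2) := Nat.pow_le_pow_right (by norm_num) (by omega)
      exact_mod_cast h3
    have h3 : (3 * (H : ℤ) ^ 2 * ((m + 2 : ℕ) : ℤ) ^ 2) ^ 4 < (2 ^ m) ^ 4 := by
      have hH8 : (0 : ℤ) < (H : ℤ) ^ 8 := by
        have : (0 : ℤ) < H := by exact_mod_cast hH1
        positivity
      have h4 : (H : ℤ) ^ 8 * (20736 * ((m + 2 : ℕ) : ℤ) ^ 8) < 2 ^ (m + 2) * 2 ^ (m + 2) :=
        mul_lt_mul' h2 h1 (by positivity) (by positivity)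
      have h5 : (2 : ℤ) ^ (m + 2) * 2 ^ (m + 2) ≤ 256 * (2 ^ m) ^ 4 := by
        have h6 : (1 : ℤ) ≤ (2 ^ m) ^ 2 := one_le_pow₀ (one_le_pow₀ (by norm_num))
        have e : (2 : ℤ) ^ (m + 2) * 2 ^ (m + 2) = 16 * (2 ^ m) ^ 2 := by ring
        have e2 : (256 : ℤ) * (2 ^ m) ^ 4 = 256 * ((2 ^ m) ^ 2 * (2 ^ m) ^ 2) := by ring
        rw [e, e2]
        have h7 : (2 ^ m : ℤ) ^ 2 ≤ (2 ^ m) ^ 2 * (2 ^ m) ^ 2 :=
          le_mul_of_one_le_right (by positivity) h6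
        linarith
      have e3 : 256 * (3 * (H : ℤ) ^ 2 * ((m + 2 : ℕ) : ℤ) ^ 2) ^ 4 =
          (H : ℤ) ^ 8 * (20736 * ((m + 2 : ℕ) : ℤ) ^ 8) := by ring
      linarith
    exact lt_of_pow_lt_pow_left₀ 4 (by positivity) h3
  set G : ℤ := ∑ i ∈ Finset.range (m + 2), p ^ i with hG
  have hG1 : G * (p - 1) = p ^ (m + 2) - 1 := geom_sum_mul p (m + 2)
  have hG2 : 2 ^ m ≤ |G| := geo p hp m
  set z : ℤ := wt w * Wz w ((m + 2 : ℕ) : ℤ) with hz
  have hz0 : z ≠ 0 := mul_ne_zero (wt_ne w hw) hWT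
  have hz1 : |z| < 2 ^ m := by
    refine lt_of_le_of_lt ?_ hsize
    rw [hz, abs_mul]
    calc |wt w| * |Wz w ((m + 2 : ℕ) : ℤ)| ≤ H * (3 * (H : ℤ) * ((m + 2 : ℕ) : ℤ) ^ 2) :=
          mul_le_mul (wt_le w H hH) (W_le w H hH (m + 2) (by omega)) (abs_nonneg _)
            (Int.natCast_nonneg H)
      _ = 3 * (H : ℤ) ^ 2 * ((m + 2 : ℕ) : ℤ) ^ 2 := by ring
  have h6 : ¬ G.natAbs ∣ z.natAbs := by
    intro h7
    have h8 := Nat.le_of_dvd (Int.natAbs_pos.2 hz0) h7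
    have h9 : |G| ≤ |z| := by
      rw [Int.abs_eq_natAbs, Int.abs_eq_natAbs]
      exact_mod_cast h8
    linarith
  rw [Nat.dvd_iff_prime_pow_dvd_dvd] at h6
  push Not at h6
  obtain ⟨q, k, hq, hk1, hk2⟩ := h6
  obtain ⟨j, rfl⟩ : ∃ j, k = j + 1 := by
    rcases Nat.eq_zero_or_pos k with h0 | h0
    · exfalso
      apply hk2
      rw [h0, pow_zero]
      exact one_dvd _
    · exact ⟨k - 1, by omega⟩
  have hqG : ((q : ℤ) ^ (j + 1)) ∣ G := by
    have h1 : ((q ^ (j + 1) : ℕ) : ℤ) ∣ G := Int.natCast_dvd.2 hk1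
    push_cast at h1
    exact h1
  have hqG1 : (q : ℤ) ∣ G := (Dvd.intro_left ((q : ℤ) ^ j) (pow_succ _ _).symm).trans hqG
  have hqT : ((q : ℤ) ^ (j + 1)) ∣ p ^ (m + 2) - 1 := by
    rw [← hG1]
    exact hqG.mul_right _
  have hqT1 : (q : ℤ) ∣ p ^ (m + 2) - 1 := by
    rw [← hG1]
    exact hqG1.mul_right _
  have : Fact q.Prime := ⟨hq⟩
  have : Fact (m + 2).Prime := ⟨hTp⟩
  have hpT : (p : ZMod q) ^ (m + 2) = 1 := by
    have h1 := (ZMod.intCast_zmod_eq_zero_iff_dvd (p ^ (m + 2) - 1) q).2 hqT1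
    push_cast at h1
    exact sub_eq_zero.1 h1
  have hp0 : (p : ZMod q) ≠ 0 := by
    intro h0
    rw [h0, zero_pow (by omega)] at hpT
    exact zero_ne_one hpT
  have hp1 : (p : ZMod q) ≠ 1 := by
    intro h1
    have h2 : ((G : ℤ) : ZMod q) = ((m + 2 : ℕ) : ZMod q) := by
      rw [hG]
      push_cast
      rw [h1]
      simp
    rw [(ZMod.intCast_zmod_eq_zero_iff_dvd G q).2 hqG1] at h2
    have h3 : q ∣ m + 2 := (ZMod.natCast_eq_zero_iff (m + 2) q).1 h2.symm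
    have h4 : q = m + 2 := (Nat.prime_dvd_prime_iff_eq hq hTp).1 h3
    have h5 : ((p - 1 : ℤ) : ZMod q) = 0 := by
      push_cast
      rw [h1, sub_self]
    have h6 : (q : ℤ) ∣ p - 1 := (ZMod.intCast_zmod_eq_zero_iff_dvd (p - 1) q).1 h5
    have h7 : q ∣ (p - 1).natAbs := Int.natCast_dvd.1 h6
    have h8 : p - 1 ≠ 0 := by
      intro h
      have : p = 1 := by linarith
      rw [this] at hp
      norm_num at hp
    have h9 := Nat.le_of_dvd (Int.natAbs_pos.2 h8) h7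
    omega
  have hord : orderOf (p : ZMod q) = m + 2 := orderOf_eq_prime hpT hp1
  have hTq : m + 2 < q := by
    have h1 := ZMod.orderOf_dvd_card_sub_one hp0
    rw [hord] at h1
    have h2 := hq.two_le
    have h3 := Nat.le_of_dvd (by omega) h1
    omega
  refine ⟨m + 2, q, j, hBT, ?_, by omega, hq, hTq, ?_, ?_, hqT, ?_⟩
  · refine hT8.trans (Nat.mul_le_mul_right B (by omega))
  · intro h
    exact hp0 ((ZMod.intCast_zmod_eq_zero_iff_dvd p q).2 h)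
  · intro l hl1 hl2 hlT h
    have h1 : (p : ZMod q) ^ l = 1 := by
      have h2 := (ZMod.intCast_zmod_eq_zero_iff_dvd (p ^ l - 1) q).2 h
      push_cast at h2
      exact sub_eq_zero.1 h2
    have h2 := orderOf_dvd_of_pow_eq_one h1
    rw [hord] at h2
    obtain ⟨c, rfl⟩ := h2
    have hc1 : c ≠ 0 := by
      rintro rfl
      omega
    have hc2 : c ≠ 1 := by
      rintro rfl
      exact hlT (mul_one _)
    have hc3 : 2 ≤ c := by omega
    have : (m + 2) * 2 ≤ (m + 2) * c := Nat.mul_le_mul_left _ hc3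
    omega
  · intro h
    apply hk2
    have h8 : ((q ^ (j + 1) : ℕ) : ℤ) ∣ z := by
      push_cast
      exact h
    exact Int.natCast_dvd.1 h8

end Pool.Agent.H410.QE
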