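import Pool.Agent.H410.QE.Stm

/-!
The perturbation term (helper214).
-/

namespace Pool.Agent.H410.QE

open Finset Polynomial
open Pool.Agent.H475.QZ (pik FF EE xx ea ww)

namespace P_PT

lemma fac_le {P y x : ℝ} {k : ℕ} (hP : 2 ≤ P) (hy : |y| = P ^ k) (hx : |x| ≤ 1) :
    |y - x| ≤ P ^ (k + 1) := by
  have h1 : |y - x| ≤ |y| + |x| := by
    have := abs_add_le y (-x)
    rwa [abs_neg, ← sub_eq_add_neg] at this
  have h2 : (1 : ℝ) ≤ P ^ k := one_le_pow₀ (by linarith)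
  have h3 : P ^ (k + 1) = P ^ k * P := pow_succ _ _
  nlinarith

lemma xx_le {p : ℤ} (hp : 2 ≤ |(p : ℝ)|) (t : ℕ) : |xx p t| ≤ 1 := by
  unfold xx
  rw [abs_inv, abs_pow]
  exact inv_le_one_of_one_le₀ (one_le_pow₀ (by linarith))

lemma FF_le {p : ℤ} (hp : 2 ≤ |(p : ℝ)|) {N a c k : ℕ} (h : 3 * a + c < N) (hk : k < N) :
    |(FF p a c).eval ((p : ℝ) ^ k)| ≤ |(p : ℝ)| ^ (N ^ 2) := by
  have hf : ∀ s, |(p : ℝ) ^ k - xx p s| ≤ |(p : ℝ)| ^ (k + 1) :=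
    fun s => fac_le hp (abs_pow _ _) (xx_le hp s)
  have hP1 : 1 ≤ |(p : ℝ)| := by linarith
  have e : (FF p a c).eval ((p : ℝ) ^ k) =
      (∏ s ∈ Icc 1 a, ((p : ℝ) ^ k - xx p s)) ^ 3 * ((p : ℝ) ^ k - xx p (a + 1)) ^ c := by
    unfold FF EE
    rw [eval_mul, eval_pow, eval_pow, eval_prod]
    simp
  have h1 : ∏ s ∈ Icc 1 a, |(p : ℝ) ^ k - xx p s| ≤ (|(p : ℝ)| ^ (k + 1)) ^ a := by
    calc ∏ s ∈ Icc 1 a, |(p : ℝ) ^ k - xx p s| ≤ ∏ s ∈ Icc 1 a, |(p : ℝ)| ^ (k + 1) :=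
          Finset.prod_le_prod (fun _ _ => abs_nonneg _) (fun s _ => hf s)
      _ = (|(p : ℝ)| ^ (k + 1)) ^ a := by
          rw [Finset.prod_const, Nat.card_Icc, Nat.add_sub_cancel]
  have h0 : (0 : ℝ) ≤ ∏ s ∈ Icc 1 a, |(p : ℝ) ^ k - xx p s| :=
    Finset.prod_nonneg fun _ _ => abs_nonneg _
  rw [e, abs_mul, abs_pow, abs_pow, Finset.abs_prod]
  calc (∏ s ∈ Icc 1 a, |(p : ℝ) ^ k - xx p s|) ^ 3 * |(p : ℝ) ^ k - xx p (a + 1)| ^ c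
      ≤ ((|(p : ℝ)| ^ (k + 1)) ^ a) ^ 3 * (|(p : ℝ)| ^ (k + 1)) ^ c :=
        mul_le_mul (pow_le_pow_left₀ h0 h1 3) (pow_le_pow_left₀ (abs_nonneg _) (hf _) c)
          (by positivity) (by positivity)
    _ = |(p : ℝ)| ^ ((k + 1) * (3 * a + c)) := by
        rw [← pow_mul, ← pow_mul, ← pow_mul, ← pow_add]
        congr 1
        ring
    _ ≤ |(p : ℝ)| ^ (N ^ 2) := by
        refine pow_le_pow_right₀ hP1 ?_
        rw [sq]
        exact Nat.mul_le_mul hk h.le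

lemma pik_ge {p : ℤ} (hp : 2 ≤ |p|) (N k : ℕ) : 1 ≤ |pik ℝ p N k| := by
  have e : pik ℝ p N k = ((∏ l ∈ (range N).erase k, (p ^ l - p ^ k) : ℤ) : ℝ) := by
    unfold pik
    push_cast
    rfl
  have h0 : (∏ l ∈ (range N).erase k, (p ^ l - p ^ k) : ℤ) ≠ 0 := by
    rw [Finset.prod_ne_zero_iff]
    intro l hl h0
    rw [Finset.mem_erase] at hl
    have h1 : p ^ l = p ^ k := sub_eq_zero.1 h0
    have h2 : |p| ^ l = |p| ^ k := by rw [← abs_pow, ← abs_pow, h1]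
    exact hl.1 (pow_right_injective₀ (by linarith : (0 : ℤ) < |p|) (by omega) h2)
  rw [e, ← Int.cast_abs]
  exact_mod_cast Int.one_le_abs h0

lemma ea_ge {p : ℤ} (hp : 2 ≤ |(p : ℝ)|) {N a : ℕ} (h : a < N) :
    (|(p : ℝ)| ^ (N ^ 2))⁻¹ ≤ ea p a := by
  have hP0 : 0 < |(p : ℝ)| := by linarith
  unfold ea
  refine inv_anti₀ (pow_pos hP0 _) (pow_le_pow_right₀ (by linarith) ?_)
  refine (Nat.div_le_self _ _).trans ?_
  rw [sq]
  exact Nat.mul_le_mul h.le h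

lemma ww_ge {p : ℤ} (hp : 2 ≤ |(p : ℝ)|) (N : ℕ) : (|(p : ℝ)| ^ (N ^ 2))⁻¹ ≤ ww p N := by
  have hP0 : 0 < |(p : ℝ)| := by linarith
  unfold ww
  refine inv_anti₀ (pow_pos hP0 _) (pow_le_pow_right₀ (by linarith) ?_)
  refine (Nat.div_le_self _ _).trans ?_
  rw [sq]
  exact Nat.mul_le_mul le_rfl (Nat.sub_le _ _)

end P_PT

open P_PT in
theorem t_PT : S_PT := by
  intro p hp
  refine ⟨11, ?_⟩
  intro N a a' c c' hc hc' h1 h2
  have hP : 2 ≤ |(p : ℝ)| := by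
    rw [← Int.cast_abs]
    exact_mod_cast hp
  have hP1 : 1 ≤ |(p : ℝ)| := by linarith
  have hP0 : 0 < |(p : ℝ)| := by linarith
  have hterm : ∀ k ∈ range N, |(FF p a c).eval ((p : ℝ) ^ k) / pik ℝ p N k * (p : ℝ) ^ k *
      (FF p a' c').eval ((p : ℝ) ^ k)| ≤ |(p : ℝ)| ^ (2 * N ^ 2 + N) := by
    intro k hk
    have hk' := mem_range.1 hk
    have a1 := FF_le hP h1 hk'
    have a2 := FF_le hP h2 hk'
    have a3 := pik_ge hp N k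
    have a4 : |(FF p a c).eval ((p : ℝ) ^ k)| / |pik ℝ p N k| ≤ |(p : ℝ)| ^ (N ^ 2) :=
      (div_le_self (abs_nonneg _) a3).trans a1
    have a5 : |(p : ℝ)| ^ k ≤ |(p : ℝ)| ^ N := pow_le_pow_right₀ hP1 hk'.le
    rw [abs_mul, abs_mul, abs_div, abs_pow]
    calc |(FF p a c).eval ((p : ℝ) ^ k)| / |pik ℝ p N k| * |(p : ℝ)| ^ k *
          |(FF p a' c').eval ((p : ℝ) ^ k)|
        ≤ |(p : ℝ)| ^ (N ^ 2) * |(p : ℝ)| ^ N * |(p : ℝ)| ^ (N ^ 2) :=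
          mul_le_mul (mul_le_mul a4 a5 (by positivity) (by positivity)) a2 (abs_nonneg _)
            (by positivity)
      _ = |(p : ℝ)| ^ (2 * N ^ 2 + N) := by
          rw [← pow_add, ← pow_add]
          congr 1
          ring
  have hN : (N : ℝ) ≤ |(p : ℝ)| ^ N := by
    have h3 : (N : ℝ) ≤ (2 : ℝ) ^ N := by exact_mod_cast (Nat.lt_two_pow_self (n := N)).le
    exact h3.trans (pow_le_pow_left₀ (by norm_num) hP N)
  have hN1 : 1 ≤ N := by omega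
  have hsum : |∑ k ∈ range N, (FF p a c).eval ((p : ℝ) ^ k) / pik ℝ p N k * (p : ℝ) ^ k *
      (FF p a' c').eval ((p : ℝ) ^ k)| ≤ |(p : ℝ)| ^ (4 * N ^ 2) := by
    calc |∑ k ∈ range N, (FF p a c).eval ((p : ℝ) ^ k) / pik ℝ p N k * (p : ℝ) ^ k *
          (FF p a' c').eval ((p : ℝ) ^ k)|
        ≤ ∑ k ∈ range N, |(FF p a c).eval ((p : ℝ) ^ k) / pik ℝ p N k * (p : ℝ) ^ k *
          (FF p a' c').eval ((p : ℝ) ^ k)| := Finset.abs_sum_le_sum_abs _ _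
      _ ≤ ∑ k ∈ range N, |(p : ℝ)| ^ (2 * N ^ 2 + N) := Finset.sum_le_sum hterm
      _ = (N : ℝ) * |(p : ℝ)| ^ (2 * N ^ 2 + N) := by
          rw [Finset.sum_const, Finset.card_range, nsmul_eq_mul]
      _ ≤ |(p : ℝ)| ^ N * |(p : ℝ)| ^ (2 * N ^ 2 + N) :=
          mul_le_mul_of_nonneg_right hN (by positivity)
      _ = |(p : ℝ)| ^ (N + (2 * N ^ 2 + N)) := (pow_add _ _ _).symm
      _ ≤ |(p : ℝ)| ^ (4 * N ^ 2) := by
          refine pow_le_pow_right₀ hP1 ?_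
          nlinarith
  refine hsum.trans ?_
  have hX : 0 < |(p : ℝ)| ^ (N ^ 2) := pow_pos hP0 _
  have e1 := ea_ge hP (N := N) (a := a) (by omega)
  have e2 := ea_ge hP (N := N) (a := a') (by omega)
  have e3 := ww_ge hP N
  obtain ⟨X, hXd⟩ : ∃ X : ℝ, X = |(p : ℝ)| ^ (N ^ 2) := ⟨_, rfl⟩
  rw [← hXd] at hX e1 e2 e3
  have e4 : |(p : ℝ)| ^ (4 * N ^ 2) = X ^ 4 := by
    rw [hXd, ← pow_mul]
    congr 1
    ring
  have e5 : |(p : ℝ)| ^ (11 * N ^ 2) = X ^ 11 := by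
    rw [hXd, ← pow_mul]
    congr 1
    ring
  have hXi : 0 < X⁻¹ := inv_pos.2 hX
  rw [e4, e5]
  calc X ^ 4 = X ^ 11 * (X⁻¹ ^ 3 * X⁻¹ ^ 3 * X⁻¹) := by
        field_simp
    _ ≤ X ^ 11 * (ea p a ^ 3 * ea p a' ^ 3 * ww p N) := by
        refine mul_le_mul_of_nonneg_left ?_ (by positivity)
        exact mul_le_mul (mul_le_mul (pow_le_pow_left₀ hXi.le e1 3)
          (pow_le_pow_left₀ hXi.le e2 3) (by positivity) (pow_nonneg (hXi.le.trans e1) 3)) e3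
          hXi.le (mul_nonneg (pow_nonneg (hXi.le.trans e1) 3) (pow_nonneg (hXi.le.trans e2) 3))

end Pool.Agent.H410.QE
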