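import Pool.Agent.H410.QE.Stm

/-!
Upper bound for the determinant with `s` in the place of `Z` (helper673 for helper410; adapted from
`H410/QL/P_UP.lean` by helper808)
-/

set_option autoImplicit false

namespace Pool.Agent.H410.QE

open Finset Polynomial
open Pool.Agent.H410.QL (Aq MQ ZZ wR)
open Pool.Agent.H410.FL (nw)
open Pool.Agent.H475.QZ (pik VV FF ea C3 ww)

namespace P_UP

theorem LL_eq (p : ℤ) (w : Fin 3 → ℤ) (s : ℤ) (N : ℕ) (F G : Polynomial ℝ) :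
    ∑ k : Fin N, ∑ l : Fin N,
      F.eval ((p : ℝ) ^ (k : ℕ)) / pik ℝ p N k *
        ((MQ p w s N).map (fun x : ℚ => (x : ℝ))) k l * G.coeff l =
      ∑ k ∈ range N, ∑ j ∈ range N,
        F.eval ((p : ℝ) ^ k) / pik ℝ p N k * ((Aq p w s k (j + 1) : ℚ) : ℝ) * G.coeff j := by
  rw [← Fin.sum_univ_eq_sum_range (fun k => ∑ j ∈ range N,
    F.eval ((p : ℝ) ^ k) / pik ℝ p N k * ((Aq p w s k (j + 1) : ℚ) : ℝ) * G.coeff j) N]
  refine Finset.sum_congr rfl fun k _ => ?_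
  rw [← Fin.sum_univ_eq_sum_range (fun j =>
    F.eval ((p : ℝ) ^ (k : ℕ)) / pik ℝ p N k * ((Aq p w s k (j + 1) : ℚ) : ℝ) * G.coeff j) N]
  rfl

theorem det_cast (p : ℤ) (w : Fin 3 → ℤ) (s : ℤ) (N : ℕ) :
    (((MQ p w s N).det : ℚ) : ℝ) = ((MQ p w s N).map (fun x : ℚ => (x : ℝ))).det := by
  have h := RingHom.map_det (Rat.castHom ℝ) (MQ p w s N)
  simpa using h

theorem ww_pow (p : ℤ) (hp : 2 ≤ |p|) (N : ℕ) :
    ww p N ^ (18 * N) * |(p : ℝ)| ^ (9 * N ^ 3) = |(p : ℝ)| ^ (9 * N ^ 2) := by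
  have hP0 : (0 : ℝ) < |(p : ℝ)| := by
    rw [abs_pos]
    intro h
    have h' : p = 0 := by exact_mod_cast h
    rw [h'] at hp; norm_num at hp
  unfold ww
  rw [inv_pow, ← pow_mul]
  have h1 : N * (N - 1) / 2 * (18 * N) + 9 * N ^ 2 = 9 * N ^ 3 := by
    have hev : 2 ∣ N * (N - 1) := (Nat.even_mul_pred_self N).two_dvd
    obtain ⟨m, hm⟩ := hev
    rw [hm, Nat.mul_div_cancel_left _ (by norm_num)]
    calc m * (18 * N) + 9 * N ^ 2 = 9 * ((2 * m) * N + N ^ 2) := by ring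
      _ = 9 * (N * (N - 1) * N + N ^ 2) := by rw [hm]
      _ = 9 * N ^ 3 := by
        rcases N with _ | n
        · simp
        · rw [Nat.add_sub_cancel]; ring
  rw [← h1, pow_add, ← mul_assoc, inv_mul_cancel₀ (pow_pos hP0 _).ne', one_mul]

theorem fac_le (P : ℝ) (hP : 2 ≤ P) (N : ℕ) : (N.factorial : ℝ) ≤ P ^ (N ^ 2) := by
  have h1 : (N.factorial : ℝ) ≤ (N : ℝ) ^ N := by
    exact_mod_cast Nat.factorial_le_pow N
  have h2 : (N : ℝ) ≤ P ^ N := by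
    have h3 : (N : ℝ) ≤ 2 ^ N := by exact_mod_cast (Nat.lt_two_pow_self).le
    exact h3.trans (pow_le_pow_left₀ (by norm_num) hP _)
  calc (N.factorial : ℝ) ≤ (N : ℝ) ^ N := h1
    _ ≤ (P ^ N) ^ N := pow_le_pow_left₀ (Nat.cast_nonneg _) h2 _
    _ = P ^ (N ^ 2) := by rw [← pow_mul]; congr 1; ring

end P_UP

open P_UP in
theorem t_UP (hDET : Pool.Agent.H475.QZ.S_DET) (hUPM : S_UPM) (hDEG : Pool.Agent.H475.QZ.S_DEG)
    (hVB : Pool.Agent.H410.QL.S_VB) (hDU : Pool.Agent.H475.QZ.S_DU) : S_UP := by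
  intro p hp
  obtain ⟨C₁, hC₁⟩ := hUPM p hp
  have hPR : (2 : ℝ) ≤ |(p : ℝ)| := by exact_mod_cast hp
  obtain ⟨P, hP⟩ : ∃ P : ℝ, P = |(p : ℝ)| := ⟨_, rfl⟩
  have hP2 : 2 ≤ P := by rw [hP]; exact hPR
  have hP0 : 0 < P := by linarith
  have hP1 : 1 ≤ P := by linarith
  obtain ⟨B0, hB0⟩ : ∃ B0 : ℝ, B0 = 18 * C3 := ⟨_, rfl⟩
  have hB00 : 0 ≤ B0 := by rw [hB0]; unfold C3; positivity
  obtain ⟨C', hC'⟩ := pow_unbounded_of_one_lt B0 (by norm_num : (1 : ℝ) < 2)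
  refine ⟨C₁ + (47 + 18 * C'), fun w s N hw hN hZ => ?_⟩
  have hZ1 : |ZZ p w - s| * |(p : ℝ)| ^ (C₁ * N ^ 2) ≤ 1 := by
    refine le_trans (mul_le_mul_of_nonneg_left ?_ (abs_nonneg _)) hZ
    exact pow_le_pow_right₀ (by linarith) (Nat.mul_le_mul_right _ (Nat.le_add_right _ _))
  obtain ⟨W, hW⟩ : ∃ W : ℝ, W = nw (wR w) := ⟨_, rfl⟩
  have hW0 : 0 ≤ W := by rw [hW]; unfold nw; positivity
  obtain ⟨hV1, hV2⟩ := hVB p hp N hN
  obtain ⟨r, hr⟩ : ∃ r : Fin N → ℝ, r = fun i : Fin N => ea p ((i : ℕ) / 3) ^ 3 := ⟨_, rfl⟩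
  have hea : ∀ a, 0 ≤ ea p a := fun a => by unfold ea; positivity
  have hww : 0 ≤ ww p N := by unfold ww; positivity
  have hr0 : ∀ i, 0 ≤ r i := fun i => by rw [hr]; exact pow_nonneg (hea _) _
  have hF : ∀ i : Fin N, (FF p ((i : ℕ) / 3) ((i : ℕ) % 3)).Monic ∧
      (FF p ((i : ℕ) / 3) ((i : ℕ) % 3)).natDegree = i := by
    intro i
    obtain ⟨h1, h2⟩ := hDEG p ((i : ℕ) / 3) ((i : ℕ) % 3)
    refine ⟨h1, ?_⟩
    rw [h2]
    exact Nat.div_add_mod _ _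
  have hdet := hDET ℝ p hp N ((MQ p w s N).map (fun x : ℚ => (x : ℝ))) _ _ hF hF
  obtain ⟨T, hT⟩ : ∃ T : Matrix (Fin N) (Fin N) ℝ, T = Matrix.of fun i j : Fin N =>
      ∑ k : Fin N, ∑ l : Fin N,
      (FF p ((i : ℕ) / 3) ((i : ℕ) % 3)).eval ((p : ℝ) ^ (k : ℕ)) / pik ℝ p N k *
        ((MQ p w s N).map (fun x : ℚ => (x : ℝ))) k l *
        (FF p ((j : ℕ) / 3) ((j : ℕ) % 3)).coeff l := ⟨_, rfl⟩
  rw [← hT] at hdet
  have hTb : ∀ i j, |T i j| ≤ (B0 * W * ww p N) * r i * r j := by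
    intro i j
    have e : T i j = ∑ k ∈ range N, ∑ l ∈ range N,
        (FF p ((i : ℕ) / 3) ((i : ℕ) % 3)).eval ((p : ℝ) ^ k) / pik ℝ p N k *
          ((Aq p w s k (l + 1) : ℚ) : ℝ) * (FF p ((j : ℕ) / 3) ((j : ℕ) % 3)).coeff l := by
      rw [hT]; exact LL_eq p w s N _ _
    have h1 := hC₁ w s N ((i : ℕ) / 3) ((j : ℕ) / 3) ((i : ℕ) % 3) ((j : ℕ) % 3) hw
      (by omega) (by omega) (by rw [Nat.div_add_mod]; exact i.2) (by rw [Nat.div_add_mod]; exact j.2)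
      hZ1
    rw [e]
    refine h1.trans_eq ?_
    rw [hB0, hr, hW]
    ring
  have hdu := hDU N T (B0 * W * ww p N) r (mul_nonneg (mul_nonneg hB00 hW0) hww) hr0 hTb
  obtain ⟨R, hR⟩ : ∃ R : ℝ, R = ∏ i, r i ^ 2 := ⟨_, rfl⟩
  have hR0 : 0 ≤ R := by rw [hR]; exact Finset.prod_nonneg fun i _ => sq_nonneg _
  have hV2' : R ^ 9 * P ^ (N ^ 3) ≤ P ^ (10 * N ^ 2) := by
    rw [hR, hP]
    refine le_trans (le_of_eq ?_) hV2
    rw [hr]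
  have hww2 := ww_pow p hp N
  rw [← hP] at hww2 hV1 ⊢
  rw [← hR] at hdu
  have hfac := fac_le P hP2 N
  have hBN : B0 ^ (18 * N) ≤ P ^ (18 * C' * N) := by
    calc B0 ^ (18 * N) ≤ (2 ^ C') ^ (18 * N) := pow_le_pow_left₀ hB00 hC'.le _
      _ = 2 ^ (18 * C' * N) := by rw [← pow_mul]; congr 1; ring
      _ ≤ P ^ (18 * C' * N) := pow_le_pow_left₀ (by norm_num) hP2 _
  obtain ⟨f, hf⟩ : ∃ f : ℝ, f = (N.factorial : ℝ) := ⟨_, rfl⟩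
  have hf0 : 0 ≤ f := by rw [hf]; positivity
  rw [← hf] at hdu hfac
  obtain ⟨u, hu⟩ : ∃ u, u = ww p N := ⟨_, rfl⟩
  rw [← hu] at hdu hww2 hww
  obtain ⟨V, hVd⟩ : ∃ V : ℝ, V = |VV ℝ p N| := ⟨_, rfl⟩
  have hV0 : 0 ≤ V := by rw [hVd]; exact abs_nonneg _
  rw [← hVd] at hV1 hdet
  rw [det_cast, ← hW]
  obtain ⟨D, hD⟩ : ∃ D : ℝ, D = |((MQ p w s N).map (fun x : ℚ => (x : ℝ))).det| := ⟨_, rfl⟩
  have hD0 : 0 ≤ D := by rw [hD]; exact abs_nonneg _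
  have hA : D ≤ V * (f * (B0 * W * u) ^ N * R) := by
    rw [hD, hdet]
    exact mul_le_mul_of_nonneg_left hdu hV0
  rw [← hD]
  have hV18 : V ^ 18 ≤ P ^ (6 * N ^ 3) := by
    calc V ^ 18 = (V ^ 3) ^ 6 := by ring
      _ ≤ (P ^ (N ^ 3)) ^ 6 := pow_le_pow_left₀ (by positivity) hV1 _
      _ = P ^ (6 * N ^ 3) := by rw [← pow_mul]; congr 1; ring
  have hR18 : R ^ 18 * P ^ (2 * N ^ 3) ≤ P ^ (20 * N ^ 2) := by
    calc R ^ 18 * P ^ (2 * N ^ 3) = (R ^ 9 * P ^ (N ^ 3)) ^ 2 := by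
          rw [mul_pow, ← pow_mul, ← pow_mul]
          congr 2
          ring
      _ ≤ (P ^ (10 * N ^ 2)) ^ 2 := pow_le_pow_left₀ (by positivity) hV2' _
      _ = P ^ (20 * N ^ 2) := by rw [← pow_mul]; congr 1; ring
  have hf18 : f ^ 18 ≤ P ^ (18 * N ^ 2) := by
    calc f ^ 18 ≤ (P ^ (N ^ 2)) ^ 18 := pow_le_pow_left₀ hf0 hfac _
      _ = P ^ (18 * N ^ 2) := by rw [← pow_mul]; congr 1; ring
  obtain ⟨Y, hY⟩ : ∃ Y : ℝ, Y = W ^ (18 * N) := ⟨_, rfl⟩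
  have hY0 : 0 ≤ Y := by rw [hY]; exact pow_nonneg hW0 _
  calc D ^ 18 * P ^ (5 * N ^ 3)
      ≤ (V * (f * (B0 * W * u) ^ N * R)) ^ 18 * P ^ (5 * N ^ 3) :=
        mul_le_mul_of_nonneg_right (pow_le_pow_left₀ hD0 hA 18) (by positivity)
    _ = V ^ 18 * (Y * (f ^ 18 * B0 ^ (18 * N) * u ^ (18 * N) * R ^ 18 * P ^ (5 * N ^ 3))) := by
        have e1 : u ^ (18 * N) = (u ^ N) ^ 18 := by rw [← pow_mul]; congr 1; ring
        have e2 : B0 ^ (18 * N) = (B0 ^ N) ^ 18 := by rw [← pow_mul]; congr 1; ring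
        have e3 : W ^ (18 * N) = (W ^ N) ^ 18 := by rw [← pow_mul]; congr 1; ring
        rw [hY, e1, e2, e3, mul_pow (B0 * W) u, mul_pow B0 W]
        ring
    _ ≤ P ^ (6 * N ^ 3) *
          (Y * (f ^ 18 * B0 ^ (18 * N) * u ^ (18 * N) * R ^ 18 * P ^ (5 * N ^ 3))) :=
        mul_le_mul_of_nonneg_right hV18 (by positivity)
    _ = Y * (f ^ 18 * B0 ^ (18 * N) * (u ^ (18 * N) * P ^ (9 * N ^ 3)) *
          (R ^ 18 * P ^ (2 * N ^ 3))) := by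
        have e3 : P ^ (6 * N ^ 3) * P ^ (5 * N ^ 3) = P ^ (9 * N ^ 3) * P ^ (2 * N ^ 3) := by
          rw [← pow_add, ← pow_add]; congr 1; ring
        linear_combination (Y * (f ^ 18 * B0 ^ (18 * N) * u ^ (18 * N) * R ^ 18)) * e3
    _ = Y * (f ^ 18 * B0 ^ (18 * N) * P ^ (9 * N ^ 2) * (R ^ 18 * P ^ (2 * N ^ 3))) := by
        rw [hww2]
    _ ≤ Y * (P ^ (18 * N ^ 2) * P ^ (18 * C' * N) * P ^ (9 * N ^ 2) * P ^ (20 * N ^ 2)) := by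
        gcongr
    _ = Y * P ^ (47 * N ^ 2 + 18 * C' * N) := by
        rw [← pow_add, ← pow_add, ← pow_add]; congr 2; ring
    _ ≤ W ^ (18 * N) * P ^ ((C₁ + (47 + 18 * C')) * N ^ 2) := by
        rw [← hY]
        refine mul_le_mul_of_nonneg_left (pow_le_pow_right₀ hP1 ?_) hY0
        have hNN : N ≤ N ^ 2 := by nlinarith
        have h2 := Nat.mul_le_mul_left (18 * C') hNN
        have h3 : (C₁ + (47 + 18 * C')) * N ^ 2 = C₁ * N ^ 2 + 47 * N ^ 2 + 18 * C' * N ^ 2 := by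
          ring
        rw [h3]
        omega

end Pool.Agent.H410.QE
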