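import Pool.Agent.H410.QE.Stm

/-!
Upper bound for the entries with `s` in the place of `Z` (helper448 for helper410)
-/

set_option autoImplicit false

namespace Pool.Agent.H410.QE

open Finset Polynomial
open Pool.Agent.H410.QL
open Pool.Agent.H410.FL (nw)
open Pool.Agent.H475.QZ (RpS pik FF ea C3 ww)

namespace P_UPM

theorem Aq_cast (hCF : Pool.Agent.H410.QL.S_CF) {p : ℤ} (hp : 2 ≤ |p|) (w : Fin 3 → ℤ) (s : ℤ)
    (k J : ℕ) :
    ((Aq p w s k J : ℚ) : ℝ) = aR p w k J - (p : ℝ) ^ (k * J) * (ZZ p w - s) := by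
  rw [hCF p hp w k J]
  unfold Aq
  push_cast
  ring

theorem one_le_nw {w : Fin 3 → ℤ} (hw : w ≠ 0) : 1 ≤ nw (wR w) := by
  unfold nw wR
  have h1 : ∃ i, w i ≠ 0 := by
    by_contra hcon
    push Not at hcon
    exact hw (funext hcon)
  obtain ⟨i, hi⟩ := h1
  have h2 : (1 : ℝ) ≤ |(w i : ℝ)| := by
    have h3 : 1 ≤ |w i| := Int.one_le_abs hi
    exact_mod_cast h3
  have h4 := abs_nonneg (w 0 : ℝ)
  have h5 := abs_nonneg (w 1 : ℝ)
  have h6 := abs_nonneg (w 2 : ℝ)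
  fin_cases i
  · simp only [Fin.zero_eta] at h2
    linarith
  · simp only [Fin.mk_one] at h2
    linarith
  · simp only [Fin.reduceFinMk] at h2
    linarith

end P_UPM

open P_UPM in
theorem t_UPM (hCF : Pool.Agent.H410.QL.S_CF) (hUP1 : Pool.Agent.H410.QL.S_UP1)
    (hDEG : Pool.Agent.H475.QZ.S_DEG) (hPT : S_PT) : S_UPM := by
  intro p hp
  obtain ⟨C, hC⟩ := hPT p hp
  refine ⟨C, ?_⟩
  intro w s N a a' c c' hw hc hc' h1 h2 hs
  have hdeg : (FF p a' c').natDegree < N := by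
    rw [(hDEG p a' c').2]
    exact h2
  have hid : ∑ k ∈ range N, ∑ j ∈ range N,
      (FF p a c).eval ((p : ℝ) ^ k) / pik ℝ p N k * ((Aq p w s k (j + 1) : ℚ) : ℝ) *
        (FF p a' c').coeff j =
      LL p w N (FF p a c) (FF p a' c') - (ZZ p w - s) *
        ∑ k ∈ range N, (FF p a c).eval ((p : ℝ) ^ k) / pik ℝ p N k * (p : ℝ) ^ k *
          (FF p a' c').eval ((p : ℝ) ^ k) := by
    unfold LL
    rw [Finset.mul_sum, ← Finset.sum_sub_distrib]
    apply Finset.sum_congr rfl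
    intro k _
    rw [Polynomial.eval_eq_sum_range' hdeg ((p : ℝ) ^ k), Finset.mul_sum, Finset.mul_sum,
      ← Finset.sum_sub_distrib]
    apply Finset.sum_congr rfl
    intro j _
    rw [Aq_cast hCF hp]
    ring
  rw [hid]
  have hX : 0 ≤ ea p a ^ 3 * ea p a' ^ 3 * ww p N := by
    unfold ea ww
    positivity
  have h3 := hUP1 p hp w N a a' c c' hc hc' h1 h2
  have h4 := hC N a a' c c' hc hc' h1 h2
  have h5 : |(ZZ p w - s) * ∑ k ∈ range N, (FF p a c).eval ((p : ℝ) ^ k) / pik ℝ p N k *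
      (p : ℝ) ^ k * (FF p a' c').eval ((p : ℝ) ^ k)| ≤ ea p a ^ 3 * ea p a' ^ 3 * ww p N := by
    rw [abs_mul]
    calc |ZZ p w - s| * |∑ k ∈ range N, (FF p a c).eval ((p : ℝ) ^ k) / pik ℝ p N k *
        (p : ℝ) ^ k * (FF p a' c').eval ((p : ℝ) ^ k)| ≤
        |ZZ p w - s| * (|(p : ℝ)| ^ (C * N ^ 2) * (ea p a ^ 3 * ea p a' ^ 3 * ww p N)) :=
          mul_le_mul_of_nonneg_left h4 (abs_nonneg _)
      _ = (|ZZ p w - s| * |(p : ℝ)| ^ (C * N ^ 2)) * (ea p a ^ 3 * ea p a' ^ 3 * ww p N) := by ring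
      _ ≤ 1 * (ea p a ^ 3 * ea p a' ^ 3 * ww p N) := mul_le_mul_of_nonneg_right hs hX
      _ = ea p a ^ 3 * ea p a' ^ 3 * ww p N := one_mul _
  have h6 := one_le_nw hw
  have h7 : (1 : ℝ) ≤ C3 := by
    unfold C3
    norm_num
  have h8 : (1 : ℝ) ≤ 9 * C3 * nw (wR w) := by nlinarith
  have h9 := mul_le_mul_of_nonneg_right h8 hX
  refine (abs_sub _ _).trans ?_
  nlinarith

end Pool.Agent.H410.QE
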