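import Pool.Agent.H410.QL.P_SUM
import Pool.Agent.H410.QL.P_CF
import Pool.Agent.H410.QL.P_TR
import Pool.Agent.H410.QL.P_E1
import Pool.Agent.H410.QL.P_RD
import Pool.Agent.H410.QL.P_EIJ
import Pool.Agent.H410.QL.P_INT
import Pool.Agent.H410.QL.P_HX
import Pool.Agent.H410.QL.P_HP
import Pool.Agent.H410.QL.P_PAD
import Pool.Agent.H410.QL.P_LOW
import Pool.Agent.H410.QL.P_TS
import Pool.Agent.H410.QL.P_TT
import Pool.Agent.H410.QL.P_T2
import Pool.Agent.H410.QL.P_RB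
import Pool.Agent.H410.QL.P_ASER
import Pool.Agent.H410.QL.P_HLL
import Pool.Agent.H410.QL.P_VAN
import Pool.Agent.H410.QL.P_KB
import Pool.Agent.H410.QL.P_UP1
import Pool.Agent.H410.QL.P_VB
import Pool.Agent.H410.QL.P_NVL
import Pool.Agent.H410.QE.P_NVP
import Pool.Agent.H410.QE.P_NV
import Pool.Agent.H410.QE.P_PT
import Pool.Agent.H410.QE.P_UPM
import Pool.Agent.H410.QE.P_UP
import Pool.Agent.H410.QE.P_LOS
import Pool.Agent.H410.QE.P_ME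
import Pool.Agent.H410.NQ.P_MON
import Pool.Agent.H410.NQ.P_PK
import Pool.Agent.H410.NQ.P_E2
import Pool.Agent.H410.NQ.P_OM
import Pool.Agent.H410.NQ.P_SV
import Pool.Agent.H410.FL.P_KER
import Pool.Agent.H475.QZ.P_B1
import Pool.Agent.H475.QZ.P_PHI
import Pool.Agent.H475.QZ.P_DET
import Pool.Agent.H475.QZ.P_DU
import Pool.Agent.H475.QZ.P_LAG
import Pool.Agent.H475.QZ.P_NU
import Pool.Agent.H475.QZ.P_NUE
import Pool.Agent.H475.QZ.P_NUQ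
import Pool.Agent.H475.QZ.P_NUX
import Pool.Agent.H475.QZ.P_DEG
import Pool.Agent.H475.QZ.P_DVD

/-!
Assembly (helper410).
-/

namespace Pool.Agent.H410.QE

theorem main : S_ME := by
  have hSUM := Pool.Agent.H410.QL.t_SUM
  have hCF := Pool.Agent.H410.QL.t_CF hSUM
  have hMON := Pool.Agent.H410.NQ.t_MON
  have hB1 := Pool.Agent.H475.QZ.t_B1
  have hPK := Pool.Agent.H410.NQ.t_PK
  have hOM := Pool.Agent.H410.NQ.t_OM
  have hTR := Pool.Agent.H410.QL.t_TR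
  have hINT := Pool.Agent.H410.QL.t_INT hTR hMON (Pool.Agent.H410.QL.t_E1 hPK hB1)
    (Pool.Agent.H410.NQ.t_E2 hPK hB1) Pool.Agent.H410.QL.t_RD (Pool.Agent.H410.QL.t_EIJ hMON)
  have hPAD := Pool.Agent.H410.QL.t_PAD hTR hMON hOM
    (Pool.Agent.H410.QL.t_HP hMON hOM Pool.Agent.H410.QL.t_HX)
  have hLOW := Pool.Agent.H410.QL.t_LOW hINT hPAD
  have hPHI := Pool.Agent.H475.QZ.t_PHI
  have hRB := Pool.Agent.H410.QL.t_RB hPHI
    (Pool.Agent.H410.QL.t_T2 (Pool.Agent.H410.QL.t_TT Pool.Agent.H410.QL.t_TS))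
  have hHLL := Pool.Agent.H410.QL.t_HLL
    (Pool.Agent.H410.QL.t_ASER hSUM Pool.Agent.H410.FL.t_KER) Pool.Agent.H475.QZ.t_LAG
  have hNU := Pool.Agent.H475.QZ.t_NU
  have hNUX := Pool.Agent.H475.QZ.t_NUX hNU
  have hKB := Pool.Agent.H410.QL.t_KB hNU hNUX (Pool.Agent.H475.QZ.t_NUQ hNU)
    (Pool.Agent.H475.QZ.t_NUE hNU hNUX)
  have hDEG := Pool.Agent.H475.QZ.t_DEG
  have hUP1 := Pool.Agent.H410.QL.t_UP1 hHLL Pool.Agent.H410.QL.t_VAN hKB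
    Pool.Agent.H475.QZ.t_DVD hDEG
  have hUPM := t_UPM hCF hUP1 hDEG t_PT
  have hUP := t_UP Pool.Agent.H475.QZ.t_DET hUPM hDEG Pool.Agent.H410.QL.t_VB
    Pool.Agent.H475.QZ.t_DU
  have hNV := t_NV t_NVP Pool.Agent.H410.QL.t_NVL
  exact t_ME hSUM (t_LOS hNV hLOW Pool.Agent.H410.NQ.t_SV hRB hUP)

end Pool.Agent.H410.QE
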