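import Pool.Agent.H410.QE.Stm

/-! Proof of `S_ME` (helper528): the measure from the lower bound `S_LOS`. -/

set_option autoImplicit false

namespace Pool.Agent.H410.QE

open Finset Polynomial
open Pool.Agent.H410.QL

namespace P_ME

/-- the real inequality of the choice of the parameters -/
theorem num {C0 B l lP l2 c : ℝ} (hC0 : 0 ≤ C0) (hB : 0 ≤ B)
    (hlP : 0 ≤ lP) (hc : c ≤ 3 * l / l2) (hBc : B = C0 * c) :
    C0 * B ^ 2 * lP ≤ (1 + C0 * (3 * C0 / l2) ^ 2 * lP) * l ^ 2 := by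
  have h2 : B ≤ 3 * C0 / l2 * l := by
    rw [hBc]
    calc C0 * c ≤ C0 * (3 * l / l2) := mul_le_mul_of_nonneg_left hc hC0
      _ = 3 * C0 / l2 * l := by ring
  have h3 : B ^ 2 ≤ (3 * C0 / l2 * l) ^ 2 := pow_le_pow_left₀ hB h2 2
  have h4 : C0 * B ^ 2 * lP ≤ C0 * (3 * C0 / l2) ^ 2 * lP * l ^ 2 := by
    calc C0 * B ^ 2 * lP ≤ C0 * (3 * C0 / l2 * l) ^ 2 * lP :=
          mul_le_mul_of_nonneg_right (mul_le_mul_of_nonneg_left h3 hC0) hlP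
      _ = C0 * (3 * C0 / l2) ^ 2 * lP * l ^ 2 := by ring
  have h5 : 0 ≤ l ^ 2 := sq_nonneg l
  rw [add_mul, one_mul]
  linarith

/-- the binary length of `⌈H⌉` -/
theorem clog_le {H : ℝ} (hH : 2 ≤ H) :
    (Nat.clog 2 ⌈H⌉₊ : ℝ) ≤ 3 * Real.log H / Real.log 2 := by
  have hl2 : 0 < Real.log 2 := Real.log_pos (by norm_num)
  have hl : Real.log 2 ≤ Real.log H := Real.log_le_log (by norm_num) hH
  have hH2 : 2 ≤ ⌈H⌉₊ := by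
    have h : (2 : ℝ) ≤ (⌈H⌉₊ : ℝ) := hH.trans (Nat.le_ceil H)
    exact_mod_cast h
  have h1 : 2 ^ (Nat.clog 2 ⌈H⌉₊).pred < ⌈H⌉₊ :=
    Nat.pow_pred_clog_lt_self Nat.one_lt_two (by omega)
  have h2 : (2 : ℝ) ^ (Nat.clog 2 ⌈H⌉₊).pred ≤ 2 * H := by
    have h3 : ((2 ^ (Nat.clog 2 ⌈H⌉₊).pred : ℕ) : ℝ) ≤ (⌈H⌉₊ : ℝ) := by exact_mod_cast h1.le
    have h4 : (⌈H⌉₊ : ℝ) < H + 1 := Nat.ceil_lt_add_one (by linarith)
    push_cast at h3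
    linarith
  have h3 := Real.log_le_log (by positivity) h2
  rw [Real.log_pow, Real.log_mul (by norm_num) (by linarith)] at h3
  have h4 : (Nat.clog 2 ⌈H⌉₊ : ℝ) ≤ ((Nat.clog 2 ⌈H⌉₊).pred : ℝ) + 1 := by
    have h5 : Nat.clog 2 ⌈H⌉₊ ≤ (Nat.clog 2 ⌈H⌉₊).pred + 1 := by
      rw [Nat.pred_eq_sub_one]
      omega
    exact_mod_cast h5
  rw [le_div_iff₀ hl2]
  have h6 := mul_le_mul_of_nonneg_right h4 hl2.le
  linarith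

/-- The series for the weight `w`. -/
theorem split (hSUM : Pool.Agent.H410.QL.S_SUM) (p : ℤ) (hp : 2 ≤ |p|) (w : Fin 3 → ℤ) :
    ZZ p w = (w 0 : ℝ) * (∑' n : ℕ, 1 / ((p : ℝ) ^ (n + 1) - 1)) +
      (w 1 : ℝ) * (∑' n : ℕ, ((n : ℝ) + 1) / ((p : ℝ) ^ (n + 1) - 1)) +
      (w 2 : ℝ) * (∑' n : ℕ, ((n : ℝ) + 1) ^ 2 / ((p : ℝ) ^ (n + 1) - 1)) := by
  have hs : ∀ a b c : ℤ, Summable fun n : ℕ =>
      ((a : ℝ) + b * ((n : ℝ) + 1) + c * ((n : ℝ) + 1) ^ 2) / ((p : ℝ) ^ (n + 1) - 1) := by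
    intro a b c
    have h1 := (hSUM p hp ![a, b, c]).2
    have e : (fun n : ℕ => cR p ![a, b, c] (n + 1)) = fun n : ℕ =>
        ((a : ℝ) + b * ((n : ℝ) + 1) + c * ((n : ℝ) + 1) ^ 2) / ((p : ℝ) ^ (n + 1) - 1) := by
      funext n
      have e0 : (![a, b, c] : Fin 3 → ℤ) 0 = a := rfl
      have e1 : (![a, b, c] : Fin 3 → ℤ) 1 = b := rfl
      have e2 : (![a, b, c] : Fin 3 → ℤ) 2 = c := rfl
      unfold cR Wz
      rw [e0, e1, e2]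
      push_cast
      rfl
    rw [e] at h1
    exact h1
  have hs1 : Summable fun n : ℕ => 1 / ((p : ℝ) ^ (n + 1) - 1) := by
    have h1 := hs 1 0 0
    simp only [Int.cast_one, Int.cast_zero, zero_mul, add_zero] at h1
    exact h1
  have hs2 : Summable fun n : ℕ => ((n : ℝ) + 1) / ((p : ℝ) ^ (n + 1) - 1) := by
    have h1 := hs 0 1 0
    simp only [Int.cast_one, Int.cast_zero, zero_mul, add_zero, one_mul, zero_add] at h1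
    exact h1
  have hs3 : Summable fun n : ℕ => ((n : ℝ) + 1) ^ 2 / ((p : ℝ) ^ (n + 1) - 1) := by
    have h1 := hs 0 0 1
    simp only [Int.cast_one, Int.cast_zero, zero_mul, add_zero, one_mul, zero_add] at h1
    exact h1
  rw [← hs1.tsum_mul_left (w 0 : ℝ), ← hs2.tsum_mul_left (w 1 : ℝ), ← hs3.tsum_mul_left (w 2 : ℝ),
    ← (hs1.mul_left (w 0 : ℝ)).tsum_add (hs2.mul_left (w 1 : ℝ)),
    ← ((hs1.mul_left (w 0 : ℝ)).add (hs2.mul_left (w 1 : ℝ))).tsum_add (hs3.mul_left (w 2 : ℝ))]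
  unfold ZZ
  refine tsum_congr fun n => ?_
  unfold cR Wz
  push_cast
  ring

end P_ME

theorem t_ME (hSUM : Pool.Agent.H410.QL.S_SUM) (hLOS : S_LOS) : S_ME := by
  intro p hp
  obtain ⟨C0, hC0, hL⟩ := hLOS p hp
  have hP : (2 : ℝ) ≤ |(p : ℝ)| := by
    have h : ((2 : ℤ) : ℝ) ≤ ((|p| : ℤ) : ℝ) := by exact_mod_cast hp
    rw [Int.cast_abs] at h
    exact_mod_cast h
  have hP0 : 0 < |(p : ℝ)| := by linarith
  have hlP : 0 ≤ Real.log |(p : ℝ)| := Real.log_nonneg (by linarith)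
  have hl2 : 0 < Real.log 2 := Real.log_pos (by norm_num)
  have hCpos : 0 < 1 + (C0 : ℝ) * (3 * (C0 : ℝ) / Real.log 2) ^ 2 * Real.log |(p : ℝ)| := by
    positivity
  refine ⟨_, hCpos, fun H b w hH hw hne => ?_⟩
  have hl : Real.log 2 ≤ Real.log H := Real.log_le_log (by norm_num) hH
  obtain ⟨S1, hS1⟩ : ∃ S : ℝ, S = ∑' n : ℕ, 1 / ((p : ℝ) ^ (n + 1) - 1) := ⟨_, rfl⟩
  obtain ⟨S2, hS2⟩ : ∃ S : ℝ, S = ∑' n : ℕ, ((n : ℝ) + 1) / ((p : ℝ) ^ (n + 1) - 1) := ⟨_, rfl⟩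
  obtain ⟨S3, hS3⟩ : ∃ S : ℝ, S = ∑' n : ℕ, ((n : ℝ) + 1) ^ 2 / ((p : ℝ) ^ (n + 1) - 1) := ⟨_, rfl⟩
  have hsp := P_ME.split hSUM p hp w
  rw [← hS1, ← hS2, ← hS3] at hsp ⊢
  by_cases hw0 : w = 0
  · have hb0 : b ≠ 0 := by
      rcases hne with h | h
      · exact h
      · exact absurd hw0 h
    subst hw0
    have h1 : (1 : ℝ) ≤ |(b : ℝ)| := by
      have h2 : (1 : ℤ) ≤ |b| := Int.one_le_abs hb0
      exact_mod_cast h2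
    have h2 : (b : ℝ) + ((0 : Fin 3 → ℤ) 0 : ℝ) * S1 + ((0 : Fin 3 → ℤ) 1 : ℝ) * S2 +
        ((0 : Fin 3 → ℤ) 2 : ℝ) * S3 = b := by
      simp
    rw [h2]
    refine le_trans (Real.exp_le_one_iff.2 ?_) h1
    have h3 : 0 ≤ Real.log H ^ 2 := sq_nonneg _
    have h4 := mul_nonneg hCpos.le h3
    linarith
  · have hH' : (H : ℝ) ≤ (⌈H⌉₊ : ℝ) := Nat.le_ceil H
    have hH2 : 2 ≤ ⌈H⌉₊ := by
      have h : (2 : ℝ) ≤ (⌈H⌉₊ : ℝ) := hH.trans hH'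
      exact_mod_cast h
    have hw' : ∀ i, |w i| ≤ ((⌈H⌉₊ : ℕ) : ℤ) := by
      intro i
      have h1 := (hw i).trans hH'
      exact_mod_cast h1
    have hk1 : 1 ≤ Nat.clog 2 ⌈H⌉₊ := Nat.clog_pos Nat.one_lt_two hH2
    have hk2 : ⌈H⌉₊ ≤ 2 ^ Nat.clog 2 ⌈H⌉₊ := Nat.le_pow_clog Nat.one_lt_two _
    have hB1 : C0 ≤ C0 * Nat.clog 2 ⌈H⌉₊ := Nat.le_mul_of_pos_right _ hk1
    have hB2 : ⌈H⌉₊ ^ C0 ≤ 2 ^ (C0 * Nat.clog 2 ⌈H⌉₊) := by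
      calc ⌈H⌉₊ ^ C0 ≤ (2 ^ Nat.clog 2 ⌈H⌉₊) ^ C0 := Nat.pow_le_pow_left hk2 C0
        _ = 2 ^ (C0 * Nat.clog 2 ⌈H⌉₊) := by rw [← pow_mul, mul_comm]
    have h1 := hL w (-b) ⌈H⌉₊ (C0 * Nat.clog 2 ⌈H⌉₊) hw0 hw' hB1 hB2
    rw [hsp] at h1
    obtain ⟨X, hX⟩ : ∃ X : ℝ, X = (b : ℝ) + w 0 * S1 + w 1 * S2 + w 2 * S3 := ⟨_, rfl⟩
    rw [← hX]
    have h2 : (w 0 : ℝ) * S1 + (w 1 : ℝ) * S2 + (w 2 : ℝ) * S3 - ((-b : ℤ) : ℝ) = X := by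
      rw [hX]
      push_cast
      ring
    rw [h2] at h1
    obtain ⟨B, hB⟩ : ∃ B : ℕ, B = C0 * Nat.clog 2 ⌈H⌉₊ := ⟨_, rfl⟩
    rw [← hB] at h1
    have hnum := P_ME.num (C0 := (C0 : ℝ)) (B := (B : ℝ)) (l := Real.log H)
      (lP := Real.log |(p : ℝ)|) (l2 := Real.log 2) (c := (Nat.clog 2 ⌈H⌉₊ : ℝ))
      (Nat.cast_nonneg _) (Nat.cast_nonneg _) hlP (P_ME.clog_le hH)
      (by rw [hB]; push_cast; ring)
    have h3 : Real.exp (-((C0 : ℝ) * (B : ℝ) ^ 2 * Real.log |(p : ℝ)|)) ≤ |X| := by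
      have h4 : |(p : ℝ)| ^ (C0 * B ^ 2) =
          Real.exp ((C0 : ℝ) * (B : ℝ) ^ 2 * Real.log |(p : ℝ)|) := by
        rw [← Real.rpow_natCast, Real.rpow_def_of_pos hP0]
        push_cast
        ring_nf
      rw [h4] at h1
      have h5 := Real.exp_pos ((C0 : ℝ) * (B : ℝ) ^ 2 * Real.log |(p : ℝ)|)
      rw [Real.exp_neg, inv_le_iff_one_le_mul₀ h5]
      exact h1.le
    refine le_trans (Real.exp_le_exp.2 ?_) h3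
    exact neg_le_neg hnum

end Pool.Agent.H410.QE
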