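import Pool.Agent.H410.QL.Stm

/-!
Statements (with complete paper proofs in the docstrings) for the quantitative form of the theorem of
`Pool/Agent/H410/QL`: for every integer `p`, `|p| ≥ 2`, there is `C > 0` with
`|b + w 0 S1 + w 1 S2 + w 2 S3| ≥ exp(-C (log H)^2)` for all integers `b, w i` of absolute value at most
`H`, not all `0`, where `S1 = ∑ 1/(p^n-1)`, `S2 = ∑ n/(p^n-1)`, `S3 = ∑ n^2/(p^n-1)` (helper410).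
`[QL: NAME]` = the model file `Pool/Agent/H410/QL/P_NAME.lean`. `P = |p| ≥ 2`, `W = Wz w`.
-/

namespace Pool.Agent.H410.QE

open Finset Polynomial
open Pool.Agent.H410.QL
open Pool.Agent.H410.NQ (vv)
open Pool.Agent.H410.FL (nw)
open Pool.Agent.H475.QZ (RpS pik FF ea C3 ww)

/-- The leading coefficient of `W`. -/
def wt (w : Fin 3 → ℤ) : ℤ := if w 2 ≠ 0 then w 2 else if w 1 ≠ 0 then w 1 else w 0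

/-- Effective choice of the prime. [QL: NVP]
Proof. `B ≥ C > |p| + 3, 40`. By Bertrand (`Nat.exists_prime_lt_and_le_two_mul`) there are primes
`T₁ ∈ (B, 2B]`, `T₂ ∈ (2B, 4B]`, `T₃ ∈ (4B, 8B]`. The polynomial `w 0 + w 1 x + w 2 x^2 ≠ 0` has at most
two roots, so `W(T) ≠ 0` for one of them, `B < T ≤ 8B`. `wt w ≠ 0`. Then
`0 < |wt w · W(T)| ≤ H (H + H T + H T^2) ≤ 3 H^2 T^2`, and `G = ∑_{i<T} p^i = (p^T-1)/(p-1)` has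
`|G| ≥ (2^T-1)/3`. With `C ≥ 8`: `(H^2)^4 ≤ H^C ≤ 2^B ≤ 2^T` (`H ≥ 1`), so `|G| > 3 H^2 T^2` for
`T ≥ 40` (`(9 T^2 H^2 + 1)^4 < 2^{4T}`, or any other way). So `G ∤ wt w · W(T)` and there are a prime `q`
and `k` with `q^{k+1} ∣ G`, `q^{k+1} ∤ wt w · W(T)`. The rest as in `QL.P_NVP`: `q ∤ p - 1` (otherwise
`q ∣ T`, `q = T ∣ p-1`, impossible as `T > |p-1| > 0`), the order of `p` mod `q` is `T`. -/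
def S_NVP : Prop := ∀ p : ℤ, 2 ≤ |p| → ∃ C : ℕ, 1 ≤ C ∧ ∀ (w : Fin 3 → ℤ) (H B : ℕ), w ≠ 0 →
  (∀ i, |w i| ≤ (H : ℤ)) → C ≤ B → H ^ C ≤ 2 ^ B → ∃ T q k : ℕ,
  B < T ∧ T ≤ C * B ∧ 3 ≤ T ∧ q.Prime ∧ T < q ∧ ¬ ((q : ℤ) ∣ p) ∧
  (∀ l : ℕ, 1 ≤ l → l < 2 * T → l ≠ T → ¬ ((q : ℤ) ∣ p ^ l - 1)) ∧
  ((q : ℤ) ^ (k + 1) ∣ p ^ T - 1) ∧ ¬ ((q : ℤ) ^ (k + 1) ∣ wt w * Wz w T)

/-- Effective nonvanishing. [QL: NV]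
Proof. `T, q, k` from `S_NVP`, `n = T - 1`, `B ≤ n ≤ C B`, `2n + 1 = 2T - 1`. `QL.S_NVL` with
`A = Aq p w s`, `C = (c_T)⁻¹ = (p^T-1)/W(T)`, and `t = (p^T-1)^j / wt w`, `j = 3, 2, 1` for `w 2 ≠ 0`,
`w 2 = 0 ≠ w 1`, `w 2 = w 1 = 0`, and `b = 2, 1, 1` (`q ∤ b` as `q > 3`). From `q^{k+1} ∣ p^T - 1`,
`q^{k+1} ∤ wt w · W(T)`: `(p^T-1)/(wt w · W(T)) ∈ q RpS q`, hence also `(p^T-1)/wt w` and
`(p^T-1)/W(T)` are in `q RpS q` (multiply by the integers `W(T)`, `wt w`). So `t ∈ q RpS q`, and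
`t h_T ≡ b` mod `q`: for `j = 3`, with `u = (p^T-1)/wt w`,
`t h_T = w 0 (p^T-1) u + w 1 p^T u + p^T (p^T+1) ≡ 2`; for `j = 2`: `w 0 u + p^T ≡ 1`; for `j = 1`:
`t h_T = 1`. Everything else as in `QL.P_NV`. -/
def S_NV : Prop := ∀ p : ℤ, 2 ≤ |p| → ∃ C : ℕ, 1 ≤ C ∧
  ∀ (w : Fin 3 → ℤ) (s : ℤ) (H B : ℕ), w ≠ 0 → (∀ i, |w i| ≤ (H : ℤ)) → C ≤ B → H ^ C ≤ 2 ^ B →
  ∃ n : ℕ, B ≤ n ∧ n ≤ C * B ∧ (MQ p w s (2 * n + 1)).det ≠ 0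

/-- The perturbation term.
Proof. The roots of `FF p a c` (monic of degree `3a + c < N`) have absolute value `≤ 1`, so for `k < N`
`|FF(p^k)| ≤ (P^k + 1)^N ≤ P^{(k+1) N} ≤ P^{N^2}`; `|π_k| ≥ 1` (a product of nonzero integers, `k < N`);
`|p^k| ≤ P^{N}`; `N ≤ P^N` terms. So the sum is at most `P^{4 N^2}`. And `ea p a ^ 3, ea p a' ^ 3, ww p N ≥
P^{-3 N^2}` each (`a(a+1)/2 ≤ N^2`, `a < N`). -/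
def S_PT : Prop := ∀ p : ℤ, 2 ≤ |p| → ∃ C : ℕ, ∀ N a a' c c' : ℕ, c ≤ 2 → c' ≤ 2 →
  3 * a + c < N → 3 * a' + c' < N →
  |∑ k ∈ range N, (FF p a c).eval ((p : ℝ) ^ k) / pik ℝ p N k * (p : ℝ) ^ k *
    (FF p a' c').eval ((p : ℝ) ^ k)| ≤
    |(p : ℝ)| ^ (C * N ^ 2) * (ea p a ^ 3 * ea p a' ^ 3 * ww p N)

/-- Upper bound for the entries with `s` in the place of `Z`.
Proof. By `QL.S_CF` `Aq p w s k (j+1) = a(k,j+1) - p^{k(j+1)} (Z - s)` in `ℝ`, so the double sum is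
`LL p w N F G - (Z - s) ∑_k F(p^k)/π_k p^k G(p^k)` (`G(p^k) = ∑_{j<N} G_j p^{kj}`, `deg G = 3a'+c' < N`,
`QZ.S_DEG`). `QL.S_UP1` bounds the first part by `9 C3 nw ea^3 ea'^3 ww`, `S_PT` (with the same `C`) and
the hypothesis the second one by `ea^3 ea'^3 ww ≤ 9 C3 nw ea^3 ea'^3 ww` (`nw ≥ 1` as `w ≠ 0` is
integral, `C3 ≥ 1`). -/
def S_UPM : Prop := ∀ p : ℤ, 2 ≤ |p| → ∃ C : ℕ, ∀ (w : Fin 3 → ℤ) (s : ℤ) (N a a' c c' : ℕ), w ≠ 0 →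
  c ≤ 2 → c' ≤ 2 → 3 * a + c < N → 3 * a' + c' < N →
  |ZZ p w - s| * |(p : ℝ)| ^ (C * N ^ 2) ≤ 1 →
  |∑ k ∈ range N, ∑ j ∈ range N,
    (FF p a c).eval ((p : ℝ) ^ k) / pik ℝ p N k * ((Aq p w s k (j + 1) : ℚ) : ℝ) *
      (FF p a' c').coeff j| ≤
    18 * C3 * nw (wR w) * ea p a ^ 3 * ea p a' ^ 3 * ww p N

/-- Upper bound for the determinant with `s` in the place of `Z`. [QL: UP]
Proof. The same as `QL.P_UP`, with the matrix `B = (Aq p w s k (j+1))` over `ℝ` and `S_UPM` (constant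
`C₁ ≤ C`) in the place of `QL.S_UP1`: `|det B| = |V| |det L|`, `|det L| ≤ N! (18 C3 nw ww)^N ∏ r_i^2`,
so `|det B|^18 P^{5N^3} ≤ nw^{18N} P^{C N^2}`. -/
def S_UP : Prop := ∀ p : ℤ, 2 ≤ |p| → ∃ C : ℕ, ∀ (w : Fin 3 → ℤ) (s : ℤ) (N : ℕ), w ≠ 0 → 1 ≤ N →
  |ZZ p w - s| * |(p : ℝ)| ^ (C * N ^ 2) ≤ 1 →
  |(((MQ p w s N).det : ℚ) : ℝ)| ^ 18 * |(p : ℝ)| ^ (5 * N ^ 3) ≤
    nw (wR w) ^ (18 * N) * |(p : ℝ)| ^ (C * N ^ 2)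

/-- Lower bound for `|Z - s|`. [QL: FIN]
Proof. Constants `C₁` (`S_NV`), `C₂` (`S_UP`), `C₃` (`QL.S_RB`); `C` large. `S_NV` gives
`n ∈ [B, C₁B]` with `det MQ ≠ 0`, `N = 2n+1 ≤ 3 C₁ B`. Suppose `|Z - s| P^{C B^2} ≤ 1`. As
`C₂ N^2 ≤ 9 C₂ C₁^2 B^2 ≤ C B^2`, `S_UP` applies. `1 ≤ nw (wR w) ≤ 3H` and `H^C ≤ 2^B`, so
`nw^{18} ≤ (3H)^{18} ≤ 2^{B + 36} ≤ P^{37 n}` (`C ≥ 18`), so `nw^{18N} ≤ P^{37 n (2n+1)} ≤ P^{111 n^2}`: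
`|det|^18 P^{5N^3} ≤ P^{C₄ n^2}`. Now as in `QL.P_FIN`: `QL.S_LOW`, `NQ.S_SV` (for `2n`), `QL.S_RB` give
`60000 n^3 ≤ 59728 n^3 + C₅ n^2`, so `272 n ≤ C₅`, which is false for `n ≥ B ≥ C > C₅`. -/
def S_LOS : Prop := ∀ p : ℤ, 2 ≤ |p| → ∃ C : ℕ, 1 ≤ C ∧
  ∀ (w : Fin 3 → ℤ) (s : ℤ) (H B : ℕ), w ≠ 0 → (∀ i, |w i| ≤ (H : ℤ)) → C ≤ B → H ^ C ≤ 2 ^ B →
  1 < |ZZ p w - s| * |(p : ℝ)| ^ (C * B ^ 2)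

/-- The measure. (`FM.S_ME` is similar.)
Proof. `w = 0`: `b ≠ 0`, `|b| ≥ 1`. `w ≠ 0`: `H' = ⌈H⌉₊ ≤ 2H`, `C₀` the constant of `S_LOS`,
`B = C₀ (⌈log H'/log 2⌉₊ + 1)`: `H'^{C₀} ≤ 2^B`, `C₀ ≤ B ≤ C₀ (log(2H)/log 2 + 2) ≤ c log H`
(`log H ≥ log 2`). With `s = -b` the number is `ZZ p w - s` (`QL.S_SUM`: the three series converge, being
the case of unit vectors `w`, `J = 0`; `∑ (w 0 + w 1 (n+1) + w 2 (n+1)^2)/(p^{n+1}-1)`, as in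
`QL.P_LI`), so its absolute value is at least `P^{-C₀ B^2} ≥ exp(-C (log H)^2)`. -/
def S_ME : Prop := ∀ p : ℤ, 2 ≤ |p| → ∃ C : ℝ, 0 < C ∧
  ∀ (H : ℝ) (b : ℤ) (w : Fin 3 → ℤ), 2 ≤ H → (∀ i, |(w i : ℝ)| ≤ H) → (b ≠ 0 ∨ w ≠ 0) →
  Real.exp (-(C * Real.log H ^ 2)) ≤
    |(b : ℝ) + w 0 * (∑' n : ℕ, 1 / ((p : ℝ) ^ (n + 1) - 1)) +
      w 1 * (∑' n : ℕ, ((n : ℝ) + 1) / ((p : ℝ) ^ (n + 1) - 1)) +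
      w 2 * (∑' n : ℕ, ((n : ℝ) + 1) ^ 2 / ((p : ℝ) ^ (n + 1) - 1))|

end Pool.Agent.H410.QE
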